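import Pool.Agent.Helper98.MM.FarPat
import Pool.Agent.Helper63.MS.Act

set_option autoImplicit false

/-!
# One state, or exactly two states
-/

namespace Pool.Agent.Helper74.MM

open MeasureTheory ProbabilityTheory Filter Topology Pool.Agent.Helper60.TJ
open Pool.Agent.Helper61.MM
open scoped symmDiff ENNReal

/-! ### measures with two atoms -/

section Atoms

variable {Y : Type*} [MeasurableSpace Y] [MeasurableSingletonClass Y]

/-- different pairs -/
def NE (Y : Type*) : Set (Y × Y) := {p | p.1 ≠ p.2}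

theorem prod_eq_count {ν : Measure Y} [IsProbabilityMeasure ν] {S : Set Y}
    {U V : Y} (hUV : U ≠ V) (hS : S = {U, V}) (h1 : ν S = 1) (A : Set (Y × Y)) :
    (ν.prod ν) (A ∩ NE Y) = (ν {U} * ν {V}) *
      (({q : Y × Y | q.1 ∈ S ∧ q.2 ∈ S ∧ q.1 ≠ q.2 ∧ q ∈ A}.ncard : ℕ) : ℝ≥0∞) := by
  classical
  have hSm : MeasurableSet S := by
    rw [hS]; exact (Set.toFinite _).measurableSet
  have hSc : ν Sᶜ = 0 := by
    rw [prob_compl_eq_one_sub hSm, h1, tsub_self]
  -- restrict to S x S
  set T : Set (Y × Y) := {q : Y × Y | q.1 ∈ S ∧ q.2 ∈ S ∧ q.1 ≠ q.2 ∧ q ∈ A} with hT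
  have hae : (A ∩ NE Y : Set (Y × Y)) =ᵐ[ν.prod ν] T := by
    have h2 : (ν.prod ν) (S ×ˢ S)ᶜ = 0 := by
      have h3 : ((S ×ˢ S)ᶜ : Set (Y × Y)) ⊆ (Sᶜ ×ˢ Set.univ) ∪ (Set.univ ×ˢ Sᶜ) := by
        intro q hq
        by_cases h : q.1 ∈ S
        · right
          refine ⟨trivial, fun h' => hq ⟨h, h'⟩⟩
        · left
          exact ⟨h, trivial⟩
      refine measure_mono_null h3 (measure_union_null ?_ ?_)
      · rw [Measure.prod_prod, hSc, zero_mul]
      · rw [Measure.prod_prod, hSc, mul_zero]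
    have h4 : ∀ᵐ q ∂(ν.prod ν), q ∈ S ×ˢ S := by
      rw [ae_iff]; exact h2
    filter_upwards [h4] with q hq
    refine propext ?_
    constructor
    · rintro ⟨ha, hb⟩
      exact ⟨hq.1, hq.2, hb, ha⟩
    · rintro ⟨_, _, hb, ha⟩
      exact ⟨ha, hb⟩
  rw [measure_congr hae]
  have hTs : T ⊆ {(U, V), (V, U)} := by
    rintro ⟨a, b⟩ ⟨ha, hb, hab, _⟩
    rw [hS] at ha hb
    simp only [Set.mem_insert_iff, Set.mem_singleton_iff] at ha hb
    rcases ha with rfl | rfl <;> rcases hb with rfl | rfl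
    · exact absurd rfl hab
    · left; rfl
    · right; rfl
    · exact absurd rfl hab
  have hTf : T.Finite := (Set.toFinite _).subset hTs
  have hmass : ∀ q ∈ T, (ν.prod ν) {q} = ν {U} * ν {V} := by
    intro q hq
    rcases hTs hq with h | h
    · rw [h, ← Set.singleton_prod_singleton, Measure.prod_prod]
    · rw [Set.mem_singleton_iff] at h
      rw [h, ← Set.singleton_prod_singleton, Measure.prod_prod, mul_comm]
  have h5 : (ν.prod ν) T = ∑ q ∈ hTf.toFinset, (ν.prod ν) {q} := by
    rw [sum_measure_singleton, hTf.coe_toFinset]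
  rw [h5, Finset.sum_congr rfl (fun q hq => hmass q (hTf.mem_toFinset.1 hq)),
    Finset.sum_const, nsmul_eq_mul, Set.ncard_eq_toFinset_card _ hTf, mul_comm]

theorem ne_one {ν : Measure Y} [IsProbabilityMeasure ν] {S : Set Y} {U : Y}
    (hS : S = {U}) (h1 : ν S = 1) : (ν.prod ν) (NE Y) = 0 := by
  have hSm : MeasurableSet S := by
    rw [hS]; exact measurableSet_singleton U
  have hSc : ν Sᶜ = 0 := by
    rw [prob_compl_eq_one_sub hSm, h1, tsub_self]
  have h3 : (NE Y : Set (Y × Y)) ⊆ (Sᶜ ×ˢ Set.univ) ∪ (Set.univ ×ˢ Sᶜ) := by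
    intro q hq
    by_cases h : q.1 ∈ S
    · right
      refine ⟨trivial, fun h' => hq ?_⟩
      rw [hS, Set.mem_singleton_iff] at h h'
      rw [h, h']
    · left
      exact ⟨h, trivial⟩
  refine measure_mono_null h3 (measure_union_null ?_ ?_)
  · rw [Measure.prod_prod, hSc, zero_mul]
  · rw [Measure.prod_prod, hSc, mul_zero]

theorem ne_two {ν : Measure Y} [IsProbabilityMeasure ν] {S : Set Y}
    {U V : Y} (hUV : U ≠ V) (hS : S = {U, V}) (h1 : ν S = 1) :
    (ν.prod ν) (NE Y) = 2 * (ν {U} * ν {V}) := by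
  have h := prod_eq_count hUV hS h1 Set.univ
  rw [Set.univ_inter] at h
  rw [h, mul_comm]
  congr 1
  have h2 : {q : Y × Y | q.1 ∈ S ∧ q.2 ∈ S ∧ q.1 ≠ q.2 ∧ q ∈ (Set.univ : Set (Y × Y))} =
      {(U, V), (V, U)} := by
    ext ⟨a, b⟩
    simp only [Set.mem_univ, and_true, Set.mem_ofPred_eq, Set.mem_insert_iff,
      Set.mem_singleton_iff, hS, Prod.mk.injEq]
    constructor
    · rintro ⟨ha, hb, hab⟩
      rcases ha with rfl | rfl <;> rcases hb with rfl | rfl
      · exact absurd rfl hab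
      · left; exact ⟨rfl, rfl⟩
      · right; exact ⟨rfl, rfl⟩
      · exact absurd rfl hab
    · rintro (⟨rfl, rfl⟩ | ⟨rfl, rfl⟩)
      · exact ⟨Or.inl rfl, Or.inr rfl, hUV⟩
      · exact ⟨Or.inr rfl, Or.inl rfl, hUV.symm⟩
  rw [h2, Set.ncard_pair]
  · norm_num
  · intro h
    exact hUV (Prod.mk.inj h).1

end Atoms

/-! ### the law of two replicas -/

variable {lam : Measure ℝ} {κ : Kernel WT Rs} {R : Measure Om}

theorem meas_f : Measurable fun r : Rs => (r ∅).1 :=
  measurable_fst.comp (measurable_pi_apply ∅)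

theorem meas_NE : MeasurableSet (NE (Ed → Bool)) := by
  have h : NE (Ed → Bool) = ⋃ e : Ed, {p : (Ed → Bool) × (Ed → Bool) | p.1 e ≠ p.2 e} := by
    ext p
    unfold NE
    simp only [Set.mem_ofPred_eq, Set.mem_iUnion]
    exact Function.ne_iff
  rw [h]
  refine MeasurableSet.iUnion fun e => ?_
  have h1 : Measurable fun p : (Ed → Bool) × (Ed → Bool) => (p.1 e, p.2 e) :=
    ((measurable_pi_apply e).comp measurable_fst).prodMk
      ((measurable_pi_apply e).comp measurable_snd)
  exact h1 (MeasurableSet.of_discrete (s := {q : Bool × Bool | q.1 ≠ q.2}))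

theorem mark_kU (hR : IsR lam κ R) : IsMarkovKernel (kU κ) := by
  have := hR.mark
  unfold kU
  exact Kernel.IsMarkovKernel.map κ meas_f

theorem prod_kU [IsMarkovKernel κ] (b : WT) :
    ((κ ×ₖ (κ ×ₖ κ)) b).map (fun x => ((x.1 ∅).1, (x.2.1 ∅).1)) =
      (kU κ b).prod (kU κ b) := by
  rw [Kernel.prod_apply, Kernel.prod_apply]
  unfold kU
  rw [Kernel.map_apply _ meas_f]
  have h1 : (κ b).map (fun r : Rs => (r ∅).1) =
      ((κ b).prod (κ b)).map (fun x : Rs × Rs => (x.1 ∅).1) := by
    have h2 : (fun x : Rs × Rs => (x.1 ∅).1) = (fun r : Rs => (r ∅).1) ∘ Prod.fst := rfl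
    rw [h2, ← Measure.map_map meas_f measurable_fst, Measure.map_fst_prod, measure_univ, one_smul]
  have hm : Measurable fun x : Rs × Rs => (x.1 ∅).1 := meas_f.comp measurable_fst
  have h3 := Measure.map_prod_map (κ b) ((κ b).prod (κ b)) meas_f hm
  rw [← h1] at h3
  rw [h3]
  rfl

theorem QQ_eq (hl : Wgt lam) (hR : IsR lam κ R) {D : Set XX} (hD : MeasurableSet D) :
    QQ R D = ∫⁻ b, ((kU κ b).prod (kU κ b))
      ({p : (Ed → Bool) × (Ed → Bool) | (b.1, p.1, p.2) ∈ D} ∩ NE (Ed → Bool)) ∂(PB lam) := by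
  have := hR.mark
  have := hR.prob
  have := Pool.Agent.Helper98.MM.prob_PB hl
  have hpm : Measurable (pr 0 1 g0) := Pool.Agent.Helper63.MS.measurable_pr 0 1 g0
  unfold QQ
  rw [Measure.map_apply hpm hD, Measure.restrict_apply (hpm hD)]
  set E : Set (WT × (Rs × (Rs × Rs))) :=
    {x | (x.1.1, (x.2.1 ∅).1, (x.2.2.1 ∅).1) ∈ D ∧ ((x.2.1 ∅).1, (x.2.2.1 ∅).1) ∈ NE (Ed → Bool)}
    with hE
  have hf1 : Measurable fun x : WT × (Rs × (Rs × Rs)) => (x.2.1 ∅).1 :=
    meas_f.comp (measurable_fst.comp measurable_snd)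
  have hf2 : Measurable fun x : WT × (Rs × (Rs × Rs)) => (x.2.2.1 ∅).1 :=
    meas_f.comp (measurable_fst.comp (measurable_snd.comp measurable_snd))
  have hEm : MeasurableSet E := by
    refine MeasurableSet.inter ?_ ?_
    · exact (((measurable_fst.comp measurable_fst).prodMk (hf1.prodMk hf2)) hD)
    · exact (hf1.prodMk hf2) meas_NE
  have h1 : (pr 0 1 g0 ⁻¹' D ∩ Df 0 1 g0 : Set Om) = Pool.Agent.Helper98.MM.Phi ⁻¹' E := by
    ext z
    have hw : ww g0 z.1 = (bE0 z.1).1 := by
      funext e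
      simp [ww, bE0]
    simp only [Set.mem_inter_iff, Set.mem_preimage, hE, Set.mem_ofPred_eq]
    unfold pr
    rw [hw]
    exact Iff.rfl
  rw [h1, ← Measure.map_apply Pool.Agent.Helper98.MM.measurable_Phi hEm,
    Pool.Agent.Helper98.MM.map_Phi hl hR, Measure.compProd_apply hEm]
  refine lintegral_congr fun b => ?_
  rw [← prod_kU b, Measure.map_apply]
  · rfl
  · exact (meas_f.comp measurable_fst).prodMk (meas_f.comp (measurable_fst.comp measurable_snd))
  · refine MeasurableSet.inter ?_ meas_NE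
    have h3 : Measurable fun p : (Ed → Bool) × (Ed → Bool) => (b.1, p.1, p.2) :=
      measurable_const.prodMk measurable_id
    exact h3 hD

/-! ### one or two -/

theorem sh_inj {u : Vx} {U V : Ed → Bool} (h : sh u U = sh u V) : U = V := by
  have h1 : sh (-u) (sh u U) = sh (-u) (sh u V) := by rw [h]
  rwa [sh_sh, sh_sh, neg_add_cancel, sh_zero, sh_zero] at h1

/-- the probability that two replicas differ -/
noncomputable def gg (κ : Kernel WT Rs) (b : WT) : ℝ≥0∞ :=
  ((kU κ b).prod (kU κ b)) (NE (Ed → Bool))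

theorem meas_D (hR : IsR lam κ R) {D : Set XX} (hD : MeasurableSet D) :
    Measurable fun b : WT => ((kU κ b).prod (kU κ b))
      ({p : (Ed → Bool) × (Ed → Bool) | (b.1, p.1, p.2) ∈ D} ∩ NE (Ed → Bool)) := by
  have := mark_kU hR
  have hE : MeasurableSet {x : WT × ((Ed → Bool) × (Ed → Bool)) |
      (x.1.1, x.2.1, x.2.2) ∈ D ∧ x.2 ∈ NE (Ed → Bool)} := by
    refine MeasurableSet.inter ?_ ?_
    · exact (((measurable_fst.comp measurable_fst).prodMk measurable_snd :
        Measurable fun x : WT × ((Ed → Bool) × (Ed → Bool)) => (x.1.1, x.2)) hD)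
    · exact measurable_snd meas_NE
  have h := Kernel.measurable_kernel_prodMk_left (κ := (kU κ) ×ₖ (kU κ)) hE
  have he : (fun b : WT => ((kU κ b).prod (kU κ b))
      ({p : (Ed → Bool) × (Ed → Bool) | (b.1, p.1, p.2) ∈ D} ∩ NE (Ed → Bool))) =
      fun b : WT => ((kU κ) ×ₖ (kU κ)) b (Prod.mk b ⁻¹' {x : WT × ((Ed → Bool) × (Ed → Bool)) |
      (x.1.1, x.2.1, x.2.2) ∈ D ∧ x.2 ∈ NE (Ed → Bool)}) := by
    funext b
    rw [Kernel.prod_apply]
    rfl
  rw [he]
  exact h

theorem gg_univ (κ : Kernel WT Rs) (b : WT) : gg κ b = ((kU κ b).prod (kU κ b))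
      ({p : (Ed → Bool) × (Ed → Bool) | (b.1, p.1, p.2) ∈ (Set.univ : Set XX)} ∩
        NE (Ed → Bool)) := by
  unfold gg
  congr 1
  ext p
  simp

theorem F_eq {ν : Measure (Ed → Bool)} [IsProbabilityMeasure ν] {U : Ed → Bool}
    (h : ν {U} = 1) (e : Ed) : ν {V | V e = true} ≠ 0 ↔ U e = true := by
  constructor
  · intro h1
    by_contra h2
    apply h1
    have h3 : ν {U}ᶜ = 0 := by
      rw [prob_compl_eq_one_sub (measurableSet_singleton U), h, tsub_self]
    refine measure_mono_null (fun V hV => ?_) h3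
    intro hVU
    rw [Set.mem_singleton_iff] at hVU
    rw [hVU] at hV
    exact h2 hV
  · intro h1 h2
    have h3 : ν {U} ≤ ν {V | V e = true} := by
      refine measure_mono fun V hV => ?_
      rw [Set.mem_singleton_iff] at hV
      rw [hV]
      exact h1
    rw [h, h2] at h3
    exact absurd h3 (by norm_num)

theorem one_or_two' (hl : Wgt lam) (hR : IsR lam κ R) {Cn : WT → Set (Ed → Bool)}
    (hCn : ∀ b, Cn b = {U | kU κ b {U} ≠ 0})
    (hsh : ∀ u, ∀ᵐ b ∂(PB lam), kU κ (shB u b) = (kU κ b).map (sh u))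
    (hGS : ∀ᵐ b ∂(PB lam), (∀ e, 0 < b.1 e) ∧ NT b.1 ∧ ∀ᵐ U ∂(kU κ b), U ∈ GS b.1 b.2)
    (hat : ∀ᵐ b ∂(PB lam), (Cn b).Finite ∧ (Cn b).ncard ≤ 2 ∧ Cn b ≠ ∅ ∧
      kU κ b (Cn b) = 1) :
    (∃ F : WT → (Ed → Bool), Measurable F ∧ (∀ᵐ b ∂(PB lam), F b ∈ GS b.1 b.2) ∧
      ∀ u, ∀ᵐ b ∂(PB lam), F (shB u b) = sh u (F b)) ∨
    ((∀ᵐ b ∂(PB lam), (Cn b).ncard = 2) ∧ R (Df 0 1 g0) ≠ 0 ∧
      (∀ D : Set XX, MeasurableSet D → AEMeasurable (ctC Cn D) (PB lam)) ∧
      ∃ c : ENNReal, c ≠ 0 ∧ c ≤ 1 ∧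
        ∀ D : Set XX, MeasurableSet D → QQ R D = c * ∫⁻ b, ctC Cn D b ∂(PB lam)) := by
  classical
  have hmk := hR.mark
  have := hR.prob
  have hpb := Pool.Agent.Helper98.MM.prob_PB hl
  have hK := mark_kU hR
  have hgm : Measurable (gg κ) := by
    have h1 := meas_D hR (D := Set.univ) MeasurableSet.univ
    have h2 : gg κ = fun b : WT => ((kU κ b).prod (kU κ b))
      ({p : (Ed → Bool) × (Ed → Bool) | (b.1, p.1, p.2) ∈ (Set.univ : Set XX)} ∩
        NE (Ed → Bool)) := funext fun b => gg_univ κ b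
    rw [h2]
    exact h1
  have hg1 : ∀ b, gg κ b ≤ 1 := fun b => prob_le_one
  -- shift invariance
  have hgs : ∀ u, ∀ᵐ b ∂(PB lam), gg κ (shB u b) = gg κ b := by
    intro u
    filter_upwards [hsh u] with b hb
    have hm : Measurable (sh u : (Ed → Bool) → (Ed → Bool)) :=
      measurable_pi_lambda _ fun e => measurable_pi_apply _
    unfold gg
    rw [hb, Measure.map_prod_map _ _ hm hm, Measure.map_apply (hm.prodMap hm) meas_NE]
    congr 1
    ext p
    unfold NE
    simp only [Set.mem_preimage, Set.mem_ofPred_eq, Prod.map_fst, Prod.map_snd]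
    exact ⟨fun h h' => h (by rw [h']), fun h h' => h (sh_inj h')⟩
  obtain ⟨c0, hc0⟩ := const_B hl (f := fun b => (gg κ b).toReal) hgm.ennreal_toReal (by
    intro u
    filter_upwards [hgs u] with b hb
    rw [hb])
  set c1 : ℝ≥0∞ := ENNReal.ofReal c0 with hc1
  have hgc : ∀ᵐ b ∂(PB lam), gg κ b = c1 := by
    filter_upwards [hc0] with b hb
    rw [hc1, ← hb, ENNReal.ofReal_toReal]
    exact ne_top_of_le_ne_top ENNReal.one_ne_top (hg1 b)
  by_cases hz : c1 = 0
  · left
    -- one atom
    have h1 : ∀ᵐ b ∂(PB lam), ∃ U, kU κ b {U} = 1 := by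
      filter_upwards [hat, hgc] with b hb hg
      obtain ⟨hf, hn, hne, hm⟩ := hb
      have hpos : 0 < (Cn b).ncard := by
        rw [Set.ncard_pos hf]
        exact Set.nonempty_iff_ne_empty.2 hne
      have h2 : (Cn b).ncard = 1 ∨ (Cn b).ncard = 2 := by omega
      rcases h2 with h2 | h2
      · obtain ⟨U, hU⟩ := Set.ncard_eq_one.1 h2
        exact ⟨U, by rw [← hU]; exact hm⟩
      · exfalso
        obtain ⟨U, V, hUV, hS⟩ := Set.ncard_eq_two.1 h2
        have h3 := ne_two hUV hS hm
        have h4 : gg κ b = 2 * (kU κ b {U} * kU κ b {V}) := h3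
        rw [hg, hz] at h4
        have hU : kU κ b {U} ≠ 0 := by
          have : U ∈ Cn b := by rw [hS]; exact Or.inl rfl
          rw [hCn] at this
          exact this
        have hV : kU κ b {V} ≠ 0 := by
          have : V ∈ Cn b := by rw [hS]; exact Or.inr rfl
          rw [hCn] at this
          exact this
        exact (mul_ne_zero (by norm_num) (mul_ne_zero hU hV)) h4.symm
    refine ⟨fun b e => if kU κ b {V | V e = true} ≠ 0 then true else false, ?_, ?_, ?_⟩
    · refine measurable_pi_lambda _ fun e => ?_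
      refine Measurable.ite ?_ measurable_const measurable_const
      have hs : MeasurableSet {V : Ed → Bool | V e = true} :=
        (measurable_pi_apply e : Measurable fun V : Ed → Bool => V e)
          (measurableSet_singleton true)
      exact (Kernel.measurable_coe (kU κ) hs) (measurableSet_singleton 0).compl
    · filter_upwards [h1, hGS] with b hb hG
      obtain ⟨U, hU⟩ := hb
      have h2 : (fun e => if kU κ b {V | V e = true} ≠ 0 then true else false) = U := by
        funext e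
        by_cases he : U e = true
        · rw [if_pos ((F_eq hU e).2 he), he]
        · rw [if_neg (fun h => he ((F_eq hU e).1 h))]
          simpa using he
      rw [h2]
      by_contra hn
      have h3 := hG.2.2
      rw [ae_iff] at h3
      have h4 : kU κ b {U} = 0 :=
        measure_mono_null (fun V hV => by rw [Set.mem_singleton_iff.1 hV]; exact hn) h3
      rw [hU] at h4
      exact one_ne_zero h4
    · intro u
      filter_upwards [h1, hsh u] with b hb hs
      obtain ⟨U, hU⟩ := hb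
      have hm : Measurable (sh u : (Ed → Bool) → (Ed → Bool)) :=
        measurable_pi_lambda _ fun e => measurable_pi_apply _
      have h2 : (fun e => if kU κ b {V | V e = true} ≠ 0 then true else false) = U := by
        funext e
        by_cases he : U e = true
        · rw [if_pos ((F_eq hU e).2 he), he]
        · rw [if_neg (fun h => he ((F_eq hU e).1 h))]
          simpa using he
      have hU' : kU κ (shB u b) {sh u U} = 1 := by
        rw [hs, Measure.map_apply hm (measurableSet_singleton _)]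
        refine le_antisymm prob_le_one ?_
        rw [← hU]
        refine measure_mono fun V hV => ?_
        rw [Set.mem_singleton_iff] at hV
        rw [hV]
        rfl
      have h3 : (fun e => if kU κ (shB u b) {V | V e = true} ≠ 0 then true else false) =
          sh u U := by
        funext e
        by_cases he : sh u U e = true
        · rw [if_pos ((F_eq hU' e).2 he), he]
        · rw [if_neg (fun h => he ((F_eq hU' e).1 h))]
          simpa using he
      rw [h2, h3]
  · right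
    have hc1le : c1 ≤ 1 := by
      obtain ⟨b, hb⟩ := hgc.exists
      rw [← hb]
      exact hg1 b
    have hc1t : c1 ≠ ⊤ := ne_top_of_le_ne_top ENNReal.one_ne_top hc1le
    have h2 : ∀ᵐ b ∂(PB lam), (Cn b).ncard = 2 := by
      filter_upwards [hat, hgc] with b hb hg
      obtain ⟨hf, hn, hne, hm⟩ := hb
      have hpos : 0 < (Cn b).ncard := by
        rw [Set.ncard_pos hf]
        exact Set.nonempty_iff_ne_empty.2 hne
      have h2 : (Cn b).ncard = 1 ∨ (Cn b).ncard = 2 := by omega
      rcases h2 with h2 | h2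
      · exfalso
        obtain ⟨U, hU⟩ := Set.ncard_eq_one.1 h2
        have h3 : gg κ b = 0 := ne_one hU hm
        rw [hg] at h3
        exact hz h3
      · exact h2
    have hmain : ∀ D : Set XX, ∀ᵐ b ∂(PB lam), ((kU κ b).prod (kU κ b))
        ({p : (Ed → Bool) × (Ed → Bool) | (b.1, p.1, p.2) ∈ D} ∩ NE (Ed → Bool)) =
          (c1 / 2) * ctC Cn D b := by
      intro D
      filter_upwards [hat, hgc, h2] with b hb hg hn2
      obtain ⟨U, V, hUV, hS⟩ := Set.ncard_eq_two.1 hn2
      have h3 := prod_eq_count hUV hS hb.2.2.2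
        {p : (Ed → Bool) × (Ed → Bool) | (b.1, p.1, p.2) ∈ D}
      have h4 : gg κ b = 2 * (kU κ b {U} * kU κ b {V}) := ne_two hUV hS hb.2.2.2
      rw [h3]
      have h5 : kU κ b {U} * kU κ b {V} = c1 / 2 := by
        rw [ENNReal.eq_div_iff (by norm_num) (by norm_num), ← h4, hg]
      rw [h5]
      rfl
    have hc0' : c1 / 2 ≠ 0 := by
      intro h
      rw [ENNReal.div_eq_zero_iff] at h
      rcases h with h | h
      · exact hz h
      · exact absurd h (by norm_num)
    have hct' : c1 / 2 ≠ ⊤ := ENNReal.div_ne_top hc1t (by norm_num)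
    refine ⟨h2, ?_, ?_, c1 / 2, hc0', ?_, ?_⟩
    · have h3 : QQ R Set.univ = R (Df 0 1 g0) := by
        unfold QQ
        rw [Measure.map_apply (Pool.Agent.Helper63.MS.measurable_pr 0 1 g0) MeasurableSet.univ,
          Set.preimage_univ, Measure.restrict_apply_univ]
      rw [← h3, QQ_eq hl hR MeasurableSet.univ]
      have h4 : ∫⁻ b, ((kU κ b).prod (kU κ b))
          ({p : (Ed → Bool) × (Ed → Bool) | (b.1, p.1, p.2) ∈ (Set.univ : Set XX)} ∩
            NE (Ed → Bool)) ∂(PB lam) = c1 := by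
        have h5 : ∫⁻ b, ((kU κ b).prod (kU κ b))
          ({p : (Ed → Bool) × (Ed → Bool) | (b.1, p.1, p.2) ∈ (Set.univ : Set XX)} ∩
            NE (Ed → Bool)) ∂(PB lam) = ∫⁻ _, c1 ∂(PB lam) := by
          refine lintegral_congr_ae ?_
          filter_upwards [hgc] with b hb
          rw [← gg_univ, hb]
        rw [h5, lintegral_const, measure_univ, mul_one]
      rw [h4]
      exact hz
    · intro D hD
      refine ⟨fun b => ((kU κ b).prod (kU κ b))
        ({p : (Ed → Bool) × (Ed → Bool) | (b.1, p.1, p.2) ∈ D} ∩ NE (Ed → Bool)) / (c1 / 2),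
        (meas_D hR hD).div_const _, ?_⟩
      filter_upwards [hmain D] with b hb
      rw [hb, mul_comm, mul_div_assoc, ENNReal.div_self hc0' hct', mul_one]
    · exact ENNReal.half_le_self.trans hc1le
    · intro D hD
      rw [QQ_eq hl hR hD, lintegral_congr_ae (hmain D), lintegral_const_mul' _ _ hct']

end Pool.Agent.Helper74.MM
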